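import Pool.Agent.LAT.StmtsM

set_option autoImplicit false

namespace Pool.Agent.LAT.H49

open Matrix

theorem rgram_snoc_sub {m r : ℕ} (v : Fin r → Fin m → ℝ) (w : Fin m → ℝ) :
    (rgram (Fin.snoc v w : Fin (r + 1) → Fin m → ℝ)).submatrix
      (finSumFinEquiv : Fin r ⊕ Fin 1 ≃ Fin (r + 1)) finSumFinEquiv =
    fromBlocks (rgram v) (Matrix.of fun i _ => v i ⬝ᵥ w) (Matrix.of fun _ j => w ⬝ᵥ v j)
      (Matrix.of fun _ _ => w ⬝ᵥ w) := by
  have h1 : ∀ i : Fin r, (Fin.snoc v w : Fin (r + 1) → Fin m → ℝ)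
      ((finSumFinEquiv : Fin r ⊕ Fin 1 ≃ Fin (r + 1)) (Sum.inl i)) = v i := by
    intro i
    have : (finSumFinEquiv : Fin r ⊕ Fin 1 ≃ Fin (r + 1)) (Sum.inl i) = Fin.castSucc i := by
      rw [finSumFinEquiv_apply_left]
      rfl
    rw [this, Fin.snoc_castSucc (α := fun _ => Fin m → ℝ)]
  have h2 : ∀ i : Fin 1, (Fin.snoc v w : Fin (r + 1) → Fin m → ℝ)
      ((finSumFinEquiv : Fin r ⊕ Fin 1 ≃ Fin (r + 1)) (Sum.inr i)) = w := by
    intro i
    have : (finSumFinEquiv : Fin r ⊕ Fin 1 ≃ Fin (r + 1)) (Sum.inr i) = Fin.last r := by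
      rw [finSumFinEquiv_apply_right]
      ext
      simp
    rw [this, Fin.snoc_last (α := fun _ => Fin m → ℝ)]
  ext i j
  rcases i with i | i <;> rcases j with j | j <;>
    simp only [submatrix_apply, rgram, Matrix.of_apply, h1, h2, fromBlocks_apply₁₁,
      fromBlocks_apply₁₂, fromBlocks_apply₂₁, fromBlocks_apply₂₂]

theorem gsd : GsdStmt := by
  intro m r v w hdet
  have hunit : IsUnit (rgram v).det := isUnit_iff_ne_zero.2 hdet
  obtain ⟨c, hc⟩ : ∃ c : Fin r → ℝ, c = fun i => v i ⬝ᵥ w := ⟨_, rfl⟩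
  obtain ⟨x, hx⟩ : ∃ x, x = (rgram v)⁻¹ *ᵥ c := ⟨_, rfl⟩
  have hGx : rgram v *ᵥ x = c := by
    rw [hx, mulVec_mulVec, mul_nonsing_inv _ hunit, one_mulVec]
  obtain ⟨u, hu⟩ : ∃ u, u = w - ∑ i, x i • v i := ⟨_, rfl⟩
  have hvu : ∀ i, v i ⬝ᵥ u = 0 := by
    intro i
    have h1 : v i ⬝ᵥ (∑ j, x j • v j) = (rgram v *ᵥ x) i := by
      rw [dotProduct_sum, mulVec, dotProduct]
      apply Finset.sum_congr rfl
      intro j _
      rw [dotProduct_smul, smul_eq_mul, mul_comm]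
      rfl
    rw [hu, dotProduct_sub, h1, hGx, hc]
    exact sub_self _
  have hsum : ∀ z : Fin r → ℝ, (∑ i, z i • v i) ⬝ᵥ u = 0 := by
    intro z
    rw [sum_dotProduct]
    apply Finset.sum_eq_zero
    intro i _
    rw [smul_dotProduct, hvu, smul_zero]
  have huu : u ⬝ᵥ u = w ⬝ᵥ w - c ⬝ᵥ x := by
    have h1 : u ⬝ᵥ u = w ⬝ᵥ u := by
      have h2 : u ⬝ᵥ u = (w - ∑ i, x i • v i) ⬝ᵥ u := by rw [← hu]
      rw [h2, sub_dotProduct, hsum, sub_zero]
    have h3 : w ⬝ᵥ (∑ i, x i • v i) = c ⬝ᵥ x := by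
      rw [dotProduct_sum, dotProduct]
      apply Finset.sum_congr rfl
      intro j _
      rw [dotProduct_smul, smul_eq_mul, mul_comm, hc, dotProduct_comm]
    rw [h1, hu, dotProduct_sub, h3]
  refine ⟨u ⬝ᵥ u, ?_, ?_, ⟨x, by rw [← hu]⟩⟩
  · rw [← Matrix.det_submatrix_equiv_self (finSumFinEquiv : Fin r ⊕ Fin 1 ≃ Fin (r + 1)),
      rgram_snoc_sub]
    letI := Matrix.invertibleOfIsUnitDet _ hunit
    rw [Matrix.det_fromBlocks₁₁, Matrix.invOf_eq_nonsing_inv]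
    congr 1
    rw [Matrix.det_unique, huu]
    have h4 : ((Matrix.of fun (_ : Fin 1) j => w ⬝ᵥ v j) * (rgram v)⁻¹ *
        (Matrix.of fun i (_ : Fin 1) => v i ⬝ᵥ w)) default default = c ⬝ᵥ x := by
      rw [Matrix.mul_assoc, hx, hc]
      simp only [mul_apply, Matrix.of_apply, mulVec, dotProduct]
      apply Finset.sum_congr rfl
      intro j _
      congr 1
      apply Finset.sum_congr rfl
      intro k _
      exact mul_comm _ _
    rw [Matrix.sub_apply, h4]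
    rfl
  · intro y
    have h5 : w - ∑ i, y i • v i = u + ∑ i, (x i - y i) • v i := by
      rw [hu]
      simp only [sub_smul, Finset.sum_sub_distrib]
      abel
    rw [h5]
    obtain ⟨t, ht⟩ : ∃ t, t = ∑ i, (x i - y i) • v i := ⟨_, rfl⟩
    have h6 : t ⬝ᵥ u = 0 := by rw [ht]; exact hsum fun i => x i - y i
    rw [← ht, add_dotProduct, dotProduct_add, dotProduct_add, h6, dotProduct_comm u t, h6]
    have h7 : 0 ≤ t ⬝ᵥ t := by
      rw [dotProduct]
      exact Finset.sum_nonneg fun i _ => mul_self_nonneg _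
    linarith

end Pool.Agent.LAT.H49
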