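import Pool.Agent.LAT.StmtsM

set_option autoImplicit false

namespace Pool.Agent.LAT.H49

open Matrix

theorem card_quot {m : ℕ} (A : Submodule ℤ (Fin m → ℤ)) (w : Fin m → ℤ) (k : ℕ) (hk : 0 < k)
    (hkw : (k : ℤ) • w ∈ A) (hmin : ∀ j : ℕ, 0 < j → j < k → (j : ℤ) • w ∉ A) :
    Nat.card ((A ⊔ Submodule.span ℤ {w} : Submodule ℤ (Fin m → ℤ)) ⧸
      A.comap (A ⊔ Submodule.span ℤ {w} : Submodule ℤ (Fin m → ℤ)).subtype) = k := by
  set A' := A ⊔ Submodule.span ℤ {w} with hA'
  set N := A.comap A'.subtype with hN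
  have hw : w ∈ A' := Submodule.mem_sup_right (Submodule.mem_span_singleton_self w)
  obtain ⟨f, hf⟩ : ∃ f : ℤ →ₗ[ℤ] A' ⧸ N,
      f = N.mkQ.comp (LinearMap.toSpanSingleton ℤ A' ⟨w, hw⟩) := ⟨_, rfl⟩
  have hfa : ∀ j : ℤ, f j = N.mkQ (j • (⟨w, hw⟩ : A')) := by
    intro j
    rw [hf]
    rfl
  have hsurj : Function.Surjective f := by
    intro q
    obtain ⟨⟨y, hy⟩, rfl⟩ := N.mkQ_surjective q
    obtain ⟨a, ha, b, hb, hab⟩ := Submodule.mem_sup.1 hy
    obtain ⟨j, rfl⟩ := Submodule.mem_span_singleton.1 hb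
    refine ⟨j, ?_⟩
    rw [hfa]
    have h1 : (⟨y, hy⟩ : A') - j • (⟨w, hw⟩ : A') ∈ N := by
      rw [hN, Submodule.mem_comap]
      show y - j • w ∈ A
      rw [← hab, add_sub_cancel_right]
      exact ha
    have h2 : N.mkQ ((⟨y, hy⟩ : A') - j • (⟨w, hw⟩ : A')) = 0 :=
      (Submodule.Quotient.mk_eq_zero N).2 h1
    rw [map_sub, sub_eq_zero] at h2
    exact h2.symm
  have hker : LinearMap.ker f = Ideal.span {(k : ℤ)} := by
    ext j
    rw [LinearMap.mem_ker, hfa, Ideal.mem_span_singleton]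
    have h1 : N.mkQ (j • (⟨w, hw⟩ : A')) = 0 ↔ j • w ∈ A := by
      rw [Submodule.mkQ_apply, Submodule.Quotient.mk_eq_zero, hN, Submodule.mem_comap]
      exact Iff.rfl
    rw [h1]
    constructor
    · intro h
      have hk' : (0 : ℤ) < k := by exact_mod_cast hk
      have h2 : (j % k) • w ∈ A := by
        have h3 : j % k = j - (j / k) * k := by
          have := Int.emod_add_mul_ediv j k
          linarith
        rw [h3, sub_smul, mul_smul]
        exact A.sub_mem h (A.smul_mem _ hkw)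
      by_contra hnd
      have h4 : j % k ≠ 0 := fun h => hnd (Int.dvd_of_emod_eq_zero h)
      have h5 : 0 ≤ j % k := Int.emod_nonneg _ hk'.ne'
      have h6 : j % k < k := Int.emod_lt_of_pos _ hk'
      obtain ⟨t, ht⟩ := Int.eq_ofNat_of_zero_le h5
      rw [ht] at h2 h4 h6
      exact hmin t (Nat.pos_of_ne_zero fun h => h4 (by rw [h]; rfl)) (by exact_mod_cast h6) h2
    · rintro ⟨t, rfl⟩
      rw [mul_comm, mul_smul]
      exact A.smul_mem _ hkw
  have e1 := f.quotKerEquivOfSurjective hsurj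
  rw [← Nat.card_congr e1.toEquiv, hker, Nat.card_congr (Int.quotientSpanNatEquivZMod k).toEquiv,
    Nat.card_zmod]

theorem tor (hidx : IdxStmt) : TorStmt := by
  intro m A w k hk hkw hmin
  set A' := A ⊔ Submodule.span ℤ {w} with hA'
  have hle : A ≤ A' := le_sup_left
  have hkA : ∀ x : A', (k : ℤ) • (x : Fin m → ℤ) ∈ A := by
    rintro ⟨y, hy⟩
    obtain ⟨a, ha, b, hb, hab⟩ := Submodule.mem_sup.1 hy
    obtain ⟨j, rfl⟩ := Submodule.mem_span_singleton.1 hb
    show (k : ℤ) • y ∈ A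
    rw [← hab, smul_add, smul_comm]
    exact A.add_mem (A.smul_mem _ ha) (A.smul_mem _ hkw)
  have hrk : rk A' = rk A := by
    apply le_antisymm
    · have hinj : Function.Injective
          (LinearMap.codRestrict A ((k : ℤ) • A'.subtype) fun x => hkA x) := by
        intro x y hxy
        have h1 := congrArg (fun z : A => (z : Fin m → ℤ)) hxy
        have h2 : (k : ℤ) • (x : Fin m → ℤ) = (k : ℤ) • (y : Fin m → ℤ) := h1
        have hk' : (k : ℤ) ≠ 0 := by exact_mod_cast hk.ne'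
        exact Subtype.ext (smul_right_injective _ hk' h2)
      exact LinearMap.finrank_le_finrank_of_injective hinj
    · exact Submodule.finrank_mono hle
  obtain ⟨K, hK, -, hgd, -⟩ := hidx m A A' hle hrk.symm
  rw [card_quot A w k hk hkw hmin] at hK
  rw [hK] at hgd
  exact ⟨hgd, hrk⟩

end Pool.Agent.LAT.H49
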